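import Mathlib

/-!
Definitions for the problem of the optimal comparison constant on the discrete cube.
-/

set_option autoImplicit false

namespace Pool.Agent.P.MP_961199_an

/-- The discrete cube `{-1,1}^n`; the units of `ℤ` are exactly `1` and `-1`. -/
abbrev Cube (n : ℕ) : Type := Fin n → ℤˣ

/-- The monomial `x ↦ ∏_{i ∈ S} x_i`. -/
def chi {n : ℕ} (S : Finset (Fin n)) (x : Cube n) : ℝ :=
  ∏ i ∈ S, ((x i : ℤ) : ℝ)

/-- The norm `‖f‖_r = (2^{-n} ∑_x |f x|^r)^{1/r}` for the uniform probability measure. -/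
noncomputable def lpNorm {n : ℕ} (r : ℝ) (f : Cube n → ℝ) : ℝ :=
  (((2 : ℝ) ^ n)⁻¹ * ∑ x : Cube n, |f x| ^ r) ^ (1 / r)

/-- The coefficient of `∏_{i ∈ S} x_i` in the multilinear expansion of `f`
(its Fourier-Walsh coefficient). -/
noncomputable def coeff {n : ℕ} (f : Cube n → ℝ) (S : Finset (Fin n)) : ℝ :=
  ((2 : ℝ) ^ n)⁻¹ * ∑ x : Cube n, f x * chi S x

/-- The degree of `f`: the largest size of a set `S` whose coefficient is nonzero
(and `0` for the zero function). -/
noncomputable def deg {n : ℕ} (f : Cube n → ℝ) : ℕ :=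
  (Finset.univ.filter fun S : Finset (Fin n) => coeff f S ≠ 0).sup Finset.card

end Pool.Agent.P.MP_961199_an
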