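import Pool.Agent.P.MP_961199_an.Defs

/-!
Basic Fourier-Walsh facts on the discrete cube.
-/

set_option autoImplicit false

namespace Pool.Agent.P.MP_961199_an

open Finset

lemma sum_units {M : Type*} [AddCommMonoid M] (g : ℤˣ → M) : ∑ e : ℤˣ, g e = g 1 + g (-1) := by
  rw [UnitsInt.univ, Finset.sum_pair (by decide)]

lemma sum_cube_succ {M : Type*} [AddCommMonoid M] {n : ℕ} (g : Cube (n + 1) → M) :
    ∑ x, g x = ∑ x : Cube n, g (Fin.cons 1 x) + ∑ x : Cube n, g (Fin.cons (-1) x) := by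
  rw [← (Fin.consEquiv (fun _ : Fin (n + 1) => ℤˣ)).sum_comp, Fintype.sum_prod_type, sum_units]
  rfl

lemma card_cube (n : ℕ) : Fintype.card (Cube n) = 2 ^ n := by
  simp [Cube, Fintype.card_units_int]

/-- Sums of products over the cube factor. -/
lemma sum_prod_cube {R : Type*} [CommSemiring R] {n : ℕ} (g : Fin n → ℤˣ → R) :
    ∑ x : Cube n, ∏ i, g i (x i) = ∏ i, (g i 1 + g i (-1)) := by
  rw [← Fintype.piFinset_univ, ← Finset.prod_univ_sum]
  simp only [sum_units]

lemma chi_eq_prod_ite {n : ℕ} (S : Finset (Fin n)) (x : Cube n) :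
    chi S x = ∏ i, if i ∈ S then ((x i : ℤ) : ℝ) else 1 := by
  rw [chi, Finset.prod_ite_mem, Finset.univ_inter]

lemma sum_chi_mul_chi {n : ℕ} (x y : Cube n) :
    ∑ S : Finset (Fin n), chi S y * chi S x = if y = x then (2 : ℝ) ^ n else 0 := by
  have h1 : ∑ S : Finset (Fin n), chi S y * chi S x
      = ∏ i, (1 + ((y i : ℤ) : ℝ) * ((x i : ℤ) : ℝ)) := by
    rw [Finset.prod_one_add, Finset.powerset_univ]
    refine Finset.sum_congr rfl fun S _ => ?_
    rw [chi, chi, Finset.prod_mul_distrib]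
  rw [h1]
  split_ifs with h
  · subst h
    have : ∀ i, (1 + ((y i : ℤ) : ℝ) * ((y i : ℤ) : ℝ)) = 2 := by
      intro i
      rcases Int.units_eq_one_or (y i) with h | h <;> rw [h] <;> norm_num
    simp [this]
  · obtain ⟨i, hi⟩ := Function.ne_iff.1 h
    apply Finset.prod_eq_zero (Finset.mem_univ i)
    rcases Int.units_eq_one_or (y i) with h1 | h1 <;>
      rcases Int.units_eq_one_or (x i) with h2 | h2 <;> simp_all

/-- The multilinear expansion. -/
lemma expansion {n : ℕ} (f : Cube n → ℝ) (x : Cube n) :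
    f x = ∑ S : Finset (Fin n), coeff f S * chi S x := by
  have : ∑ S : Finset (Fin n), coeff f S * chi S x
      = ((2 : ℝ) ^ n)⁻¹ * ∑ y : Cube n, f y * ∑ S : Finset (Fin n), chi S y * chi S x := by
    simp only [coeff, Finset.mul_sum, Finset.sum_mul]
    rw [Finset.sum_comm]
    refine Finset.sum_congr rfl fun y _ => Finset.sum_congr rfl fun S _ => by ring
  rw [this]
  simp only [sum_chi_mul_chi, mul_ite, mul_zero, Finset.sum_ite_eq', Finset.mem_univ, if_true]
  field_simp

lemma card_le_deg {n : ℕ} {f : Cube n → ℝ} {S : Finset (Fin n)} (h : coeff f S ≠ 0) :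
    S.card ≤ deg f :=
  Finset.le_sup (f := Finset.card) (by simpa using h)

lemma deg_le {n : ℕ} {f : Cube n → ℝ} {d : ℕ}
    (h : ∀ S : Finset (Fin n), d < S.card → coeff f S = 0) : deg f ≤ d := by
  apply Finset.sup_le
  intro S hS
  by_contra hlt
  exact (Finset.mem_filter.1 hS).2 (h S (not_le.1 hlt))

end Pool.Agent.P.MP_961199_an
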