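import Pool.Agent.P.MP_961199_an.Fourier

/-!
The lower bound: no constant below `(2q/p - 1)^{1/2}` works.
-/

set_option autoImplicit false

namespace Pool.Agent.P.MP_961199_an

open Real Set Metric

lemma lpNorm_eq_norm {n : ℕ} {s : ℝ} (hs : 0 < s) (f : Cube n → ℝ) :
    lpNorm s f = ((2 : ℝ) ^ n)⁻¹ ^ (1 / s) *
      ‖(WithLp.toLp (ENNReal.ofReal s) f : PiLp (ENNReal.ofReal s) (fun _ : Cube n => ℝ))‖ := by
  have htr : (ENNReal.ofReal s).toReal = s := ENNReal.toReal_ofReal hs.le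
  rw [PiLp.norm_eq_sum (by rw [htr]; exact hs), htr, lpNorm, mul_rpow (by positivity)
    (Finset.sum_nonneg fun _ _ => rpow_nonneg (abs_nonneg _) _)]
  rfl

lemma lpNorm_hasSum_le {n : ℕ} {s : ℝ} (hs : 1 ≤ s) {g : ℕ → Cube n → ℝ} {G : Cube n → ℝ}
    (hg : ∀ x, HasSum (fun d => g d x) (G x)) {b : ℕ → ℝ} {B : ℝ} (hb : HasSum b B)
    (hle : ∀ d, lpNorm s (g d) ≤ b d) : lpNorm s G ≤ B := by
  have hs0 : 0 < s := by linarith
  have : Fact (1 ≤ ENNReal.ofReal s) := ⟨by simpa using hs⟩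
  set c : ℝ := ((2 : ℝ) ^ n)⁻¹ ^ (1 / s) with hc
  have hc0 : 0 < c := by positivity
  have h1 : HasSum g G := Pi.hasSum.2 hg
  have h2 := (PiLp.continuousLinearEquiv (ENNReal.ofReal s) ℝ
    (fun _ : Cube n => ℝ)).symm.toContinuousLinearMap.hasSum h1
  have h3 := h2.norm_le_of_bounded (hb.mul_left c⁻¹) (fun d => by
    have := hle d
    rw [lpNorm_eq_norm hs0, ← hc, ← le_inv_mul_iff₀ hc0] at this
    exact this)
  rw [lpNorm_eq_norm hs0, ← hc, ← le_inv_mul_iff₀ hc0]
  exact h3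

lemma lpNorm_const_mul {n : ℕ} {s : ℝ} (hs : 0 < s) {c : ℝ} (hc : 0 ≤ c) (f : Cube n → ℝ) :
    lpNorm s (fun x => c * f x) = c * lpNorm s f := by
  have : ∑ x : Cube n, |c * f x| ^ s = c ^ s * ∑ x : Cube n, |f x| ^ s := by
    rw [Finset.mul_sum]
    refine Finset.sum_congr rfl fun x _ => ?_
    rw [abs_mul, abs_of_nonneg hc, mul_rpow hc (abs_nonneg _)]
  rw [lpNorm, lpNorm, this, mul_left_comm, mul_rpow (rpow_nonneg hc _) (mul_nonneg (by positivity)
    (Finset.sum_nonneg fun _ _ => rpow_nonneg (abs_nonneg _) _)), ← rpow_mul hc,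
    show s * (1 / s) = 1 by field_simp, rpow_one]

lemma lpNorm_nonneg {n : ℕ} (s : ℝ) (f : Cube n → ℝ) : 0 ≤ lpNorm s f :=
  rpow_nonneg (mul_nonneg (by positivity)
    (Finset.sum_nonneg fun _ _ => rpow_nonneg (abs_nonneg _) _)) _

lemma clm_iteratedDeriv {E : Type*} [NormedAddCommGroup E] [NormedSpace ℂ E] [CompleteSpace E]
    (L : E →L[ℂ] ℂ) {Φ : ℂ → E} (hΦ : Differentiable ℂ Φ) (d : ℕ) :
    L (iteratedDeriv d Φ 0) = iteratedDeriv d (L ∘ Φ) 0 := by
  rw [iteratedDeriv_eq_iteratedFDeriv, iteratedDeriv_eq_iteratedFDeriv,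
    L.iteratedFDeriv_comp_left (n := d) (hΦ.contDiff.contDiffAt) le_rfl]
  rfl

lemma iteratedDeriv_pow_mul_eq_zero {g : ℂ → ℂ} (hg : Differentiable ℂ g) {d k : ℕ} (h : d < k) :
    iteratedDeriv d (fun z => z ^ k * g z) 0 = 0 := by
  have ha : AnalyticAt ℂ (fun z => z ^ k * g z) 0 :=
    Differentiable.analyticAt (by fun_prop) 0
  refine (natCast_le_analyticOrderAt_iff_iteratedDeriv_eq_zero ha).1 ?_ d h
  rw [natCast_le_analyticOrderAt ha]
  exact ⟨g, hg.analyticAt 0, Filter.Eventually.of_forall fun z => by simp⟩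

lemma taylor_transfer {p q C : ℝ} (hp : 1 ≤ p) (hq : 1 ≤ q) (hC : 1 ≤ C) {n : ℕ}
    (H : ∀ f : Cube n → ℝ, lpNorm q f ≤ C ^ deg f * lpNorm p f)
    (φ : ℂ → ℤˣ → ℂ) (hφ : ∀ e, Differentiable ℂ (fun z => φ z e)) (h0 : φ 0 1 = φ 0 (-1))
    {M : ℝ} (hM : ∀ z : ℂ, ‖z‖ = 1 →
      (((2 : ℝ) ^ n)⁻¹ * ∑ x : Cube n, ‖∏ i, φ z (x i)‖ ^ p) ^ (1 / p) ≤ M)
    {t : ℝ} (ht0 : 0 ≤ t) (ht : t * C < 1) :
    lpNorm q (fun x : Cube n => (∏ i, φ t (x i)).re) ≤ (1 - t * C)⁻¹ * M := by
  classical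
  have hp0 : 0 < p := by linarith
  have hq0 : 0 < q := by linarith
  have : Fact (1 ≤ ENNReal.ofReal p) := ⟨by simpa using hp⟩
  have htr : (ENNReal.ofReal p).toReal = p := ENNReal.toReal_ofReal hp0.le
  let E := PiLp (ENNReal.ofReal p) (fun _ : Cube n => ℂ)
  let Φ : ℂ → E := fun z => WithLp.toLp _ (fun x => ∏ i, φ z (x i))
  have hΦ : Differentiable ℂ Φ := (differentiable_piLp _).2 fun x => by
    change Differentiable ℂ fun z => ∏ i, φ z (x i)
    exact Differentiable.fun_finsetProd fun i _ => hφ (x i)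
  set c : ℝ := ((2 : ℝ) ^ n)⁻¹ ^ (1 / p) with hc
  have hc0 : 0 < c := by positivity
  have hnorm : ∀ v : E, c * ‖v‖ = (((2 : ℝ) ^ n)⁻¹ * ∑ x : Cube n, ‖v x‖ ^ p) ^ (1 / p) := by
    intro v
    rw [PiLp.norm_eq_sum (by rw [htr]; exact hp0), htr, mul_rpow (by positivity)
      (Finset.sum_nonneg fun _ _ => rpow_nonneg (norm_nonneg _) _)]
  have hD : ∀ d : ℕ, ‖iteratedDeriv d Φ 0‖ ≤ d.factorial * (c⁻¹ * M) := by
    intro d
    have := Complex.norm_iteratedDeriv_le_of_forall_mem_sphere_norm_le (f := Φ) (c := 0)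
      (C := c⁻¹ * M) d one_pos hΦ.diffContOnCl (fun z hz => by
        rw [le_inv_mul_iff₀ hc0, hnorm]
        exact hM z (by simpa using hz))
    simpa using this
  let a : ℕ → Cube n → ℝ := fun d x => ((d.factorial : ℝ))⁻¹ * (iteratedDeriv d Φ 0 x).re
  have ha1 : ∀ d, lpNorm p (a d) ≤ M := by
    intro d
    have hf : (0 : ℝ) < d.factorial := by positivity
    rw [lpNorm_const_mul hp0 (by positivity), inv_mul_le_iff₀ hf]
    have h1 : lpNorm p (fun x => (iteratedDeriv d Φ 0 x).re) ≤ c * ‖iteratedDeriv d Φ 0‖ := by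
      rw [hnorm, lpNorm]
      refine rpow_le_rpow (mul_nonneg (by positivity)
        (Finset.sum_nonneg fun _ _ => rpow_nonneg (abs_nonneg _) _)) ?_ (by positivity)
      refine mul_le_mul_of_nonneg_left (Finset.sum_le_sum fun x _ => ?_) (by positivity)
      exact rpow_le_rpow (abs_nonneg _) (Complex.abs_re_le_norm _) hp0.le
    refine h1.trans ?_
    calc c * ‖iteratedDeriv d Φ 0‖ ≤ c * (d.factorial * (c⁻¹ * M)) := by gcongr; exact hD d
      _ = d.factorial * M := by field_simp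
  have ha2 : ∀ d, deg (a d) ≤ d := by
    intro d
    apply deg_le
    intro S hS
    let L : E →L[ℂ] ℂ := ∑ x : Cube n, (chi S x : ℂ) •
      PiLp.proj (𝕜 := ℂ) (ENNReal.ofReal p) (fun _ : Cube n => ℂ) x
    have hL : ∀ v : E, L v = ∑ x : Cube n, (chi S x : ℂ) * v x := by
      intro v
      simp only [L, sum_apply, smul_apply, smul_eq_mul]
      rfl
    let δ : ℂ → ℂ := dslope (fun z => φ z 1 - φ z (-1)) 0
    have hδ : Differentiable ℂ δ := by
      rw [← differentiableOn_univ]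
      exact (Complex.differentiableOn_dslope Filter.univ_mem).2
        ((hφ 1).sub (hφ (-1))).differentiableOn
    have hδz : ∀ z, z * δ z = φ z 1 - φ z (-1) := by
      intro z
      have := sub_smul_dslope (fun z => φ z 1 - φ z (-1)) 0 z
      simpa only [sub_zero, smul_eq_mul, h0, sub_self] using this
    let g : ℂ → ℂ := fun z => ∏ i : Fin n, if i ∈ S then δ z else φ z 1 + φ z (-1)
    have hg : Differentiable ℂ g := Differentiable.fun_finsetProd fun i _ => by
      split_ifs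
      · exact hδ
      · exact (hφ 1).add (hφ (-1))
    have hLΦ : L ∘ Φ = fun z => z ^ S.card * g z := by
      funext z
      rw [Function.comp_apply, hL]
      have e1 : ∀ x : Cube n, (chi S x : ℂ) * Φ z x
          = ∏ i, ((if i ∈ S then ((x i : ℤ) : ℂ) else 1) * φ z (x i)) := by
        intro x
        rw [Finset.prod_mul_distrib, chi_eq_prod_ite]
        push_cast
        congr 1
        refine Finset.prod_congr rfl fun i _ => ?_
        split_ifs <;> simp
      simp only [e1]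
      rw [sum_prod_cube (fun i e => (if i ∈ S then ((e : ℤ) : ℂ) else 1) * φ z e)]
      have e2 : z ^ S.card = ∏ i : Fin n, if i ∈ S then z else 1 := by
        rw [Finset.prod_ite_mem, Finset.univ_inter, Finset.prod_const]
      rw [e2, ← Finset.prod_mul_distrib]
      refine Finset.prod_congr rfl fun i _ => ?_
      split_ifs
      · rw [hδz]; simp; ring
      · simp
    have hz : L (iteratedDeriv d Φ 0) = 0 := by
      rw [clm_iteratedDeriv L hΦ, hLΦ]
      exact iteratedDeriv_pow_mul_eq_zero hg hS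
    rw [hL] at hz
    have hre := congrArg Complex.re hz
    simp only [Complex.re_sum, Complex.re_ofReal_mul, Complex.zero_re] at hre
    have : ∑ x : Cube n, a d x * chi S x
        = ((d.factorial : ℝ))⁻¹ * ∑ x : Cube n, chi S x * (iteratedDeriv d Φ 0 x).re := by
      rw [Finset.mul_sum]
      exact Finset.sum_congr rfl fun x _ => by simp only [a]; ring
    rw [coeff, this, hre, mul_zero, mul_zero]
  have hsum : ∀ x : Cube n, HasSum (fun d => t ^ d * a d x) (∏ i, φ t (x i)).re := by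
    intro x
    have h1 := Complex.hasSum_taylorSeries_of_entire hΦ 0 (t : ℂ)
    have h2 := (PiLp.proj (𝕜 := ℂ) (ENNReal.ofReal p) (fun _ : Cube n => ℂ) x).hasSum h1
    have h3 := Complex.hasSum_re h2
    convert h3 using 2 with d
    · simp only [a, sub_zero, map_smul, PiLp.proj_apply, smul_eq_mul]
      rw [← Complex.ofReal_pow, ← Complex.ofReal_natCast, ← Complex.ofReal_inv,
        Complex.re_ofReal_mul, Complex.re_ofReal_mul]
      ring
    · rfl
  have hgeo : HasSum (fun d : ℕ => (t * C) ^ d * M) ((1 - t * C)⁻¹ * M) :=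
    (hasSum_geometric_of_lt_one (by positivity) ht).mul_right M
  refine lpNorm_hasSum_le hq hsum hgeo fun d => ?_
  rw [lpNorm_const_mul hq0 (by positivity), mul_pow, mul_assoc]
  refine mul_le_mul_of_nonneg_left ((H _).trans ?_) (by positivity)
  exact mul_le_mul (pow_le_pow_right₀ hC (ha2 d)) (ha1 d) (lpNorm_nonneg _ _) (by positivity)

lemma one_add_le_cosh {y : ℝ} (hy : 0 ≤ y) : 1 + y ^ 2 / 2 ≤ cosh y := by
  have h1 : y / 2 ≤ sinh (y / 2) := self_le_sinh_iff.2 (by linarith)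
  have h2 := Real.cosh_two_mul (y / 2)
  rw [show 2 * (y / 2) = y by ring, Real.cosh_sq] at h2
  nlinarith

lemma sum_prod_exp {n : ℕ} (α β : ℝ) :
    ((2 : ℝ) ^ n)⁻¹ * ∑ x : Cube n, ∏ i, rexp (α * ((x i : ℤ) : ℝ) + β)
      = (cosh α * rexp β) ^ n := by
  rw [sum_prod_cube (fun _ e => rexp (α * ((e : ℤ) : ℝ) + β))]
  have : rexp (α * (((1 : ℤˣ) : ℤ) : ℝ) + β) + rexp (α * (((-1 : ℤˣ) : ℤ) : ℝ) + β)
      = 2 * (cosh α * rexp β) := by
    rw [Real.cosh_eq]
    simp only [Units.val_one, Int.cast_one, mul_one, Units.val_neg, Int.reduceNeg, Int.cast_neg,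
      mul_neg, exp_add]
    ring
  rw [this, Finset.prod_const, Finset.card_univ, Fintype.card_fin, mul_pow]
  field_simp

lemma cosh_bound {p q C : ℝ} (hp : 1 ≤ p) (hq : 1 ≤ q) (hC : 1 ≤ C)
    (H : ∀ n : ℕ, 1 ≤ n → ∀ f : Cube n → ℝ, lpNorm q f ≤ C ^ deg f * lpNorm p f)
    {t : ℝ} (ht0 : 0 ≤ t) (ht : t * C < 1) (ρ : ℝ) :
    cosh (2 * (q / p) * ρ * t) ≤ rexp (q / p * ρ ^ 2 * (1 + t ^ 2)) := by
  have hp0 : 0 < p := by linarith
  have hq0 : 0 < q := by linarith
  let φ : ℂ → ℤˣ → ℂ := fun z e =>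
    Complex.exp (((2 / p * ρ : ℝ) : ℂ) * z * ((e : ℤ) : ℂ) - ((ρ ^ 2 / p : ℝ) : ℂ) * z ^ 2)
  have hφ : ∀ e, Differentiable ℂ (fun z => φ z e) := fun e => by fun_prop
  have h0 : φ 0 1 = φ 0 (-1) := by simp [φ]
  set X := cosh (2 * (q / p) * ρ * t) * rexp (-(q / p * ρ ^ 2 * t ^ 2)) with hX
  have hX0 : 0 < X := mul_pos (cosh_pos _) (exp_pos _)
  have key : ∀ n : ℕ, 1 ≤ n →
      (X ^ n) ^ (1 / q) ≤ (1 - t * C)⁻¹ * (rexp (ρ ^ 2) ^ n) ^ (1 / p) := by
    intro n hn
    have h1 := taylor_transfer hp hq hC (H n hn) φ hφ h0 (M := (rexp (ρ ^ 2) ^ n) ^ (1 / p))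
      (fun z hz => by
        have hz2 : z.re ^ 2 + z.im ^ 2 = 1 := by
          have := Complex.sq_norm z
          rw [hz, Complex.normSq_apply] at this
          nlinarith
        have e1 : ∀ x : Cube n, ‖∏ i, φ z (x i)‖ ^ p = ∏ i, rexp (2 * ρ * z.re * ((x i : ℤ) : ℝ)
            + -(ρ ^ 2 * (2 * z.re ^ 2 - 1))) := by
          intro x
          rw [norm_prod, ← Real.finsetProd_rpow _ _ (fun _ _ => norm_nonneg _)]
          refine Finset.prod_congr rfl fun i _ => ?_
          simp only [φ]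
          rw [Complex.norm_exp, ← exp_mul]
          congr 1
          rw [Complex.sub_re, mul_assoc, Complex.re_ofReal_mul, Complex.re_ofReal_mul,
            ← Complex.ofReal_intCast, Complex.re_mul_ofReal, sq z, Complex.mul_re]
          field_simp
          linear_combination (ρ ^ 2) * hz2
        simp only [e1]
        rw [sum_prod_exp]
        refine rpow_le_rpow (by positivity) (pow_le_pow_left₀ (by positivity) ?_ n) (by positivity)
        calc cosh (2 * ρ * z.re) * rexp (-(ρ ^ 2 * (2 * z.re ^ 2 - 1)))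
            ≤ rexp ((2 * ρ * z.re) ^ 2 / 2) * rexp (-(ρ ^ 2 * (2 * z.re ^ 2 - 1))) := by
              gcongr; exact cosh_le_exp_half_sq _
          _ = rexp (ρ ^ 2) := by rw [← exp_add]; congr 1; ring) ht0 ht
    have e2 : ∀ x : Cube n, |(∏ i, φ t (x i)).re| ^ q
        = ∏ i, rexp (2 * (q / p) * ρ * t * ((x i : ℤ) : ℝ) + -(q / p * ρ ^ 2 * t ^ 2)) := by
      intro x
      have e3 : ∏ i, φ t (x i) = ((∏ i, rexp (2 / p * ρ * t * ((x i : ℤ) : ℝ)
          - ρ ^ 2 / p * t ^ 2) : ℝ) : ℂ) := by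
        simp only [φ]
        push_cast
        rfl
      rw [e3, Complex.ofReal_re, abs_of_nonneg (Finset.prod_nonneg fun _ _ => (exp_pos _).le),
        ← Real.finsetProd_rpow _ _ (fun _ _ => (exp_pos _).le)]
      refine Finset.prod_congr rfl fun i _ => ?_
      rw [← exp_mul]
      congr 1
      ring
    rw [lpNorm] at h1
    simp only [e2] at h1
    rwa [sum_prod_exp] at h1
  set Y := X ^ (1 / q) / rexp (ρ ^ 2) ^ (1 / p) with hY
  have hE : 0 < rexp (ρ ^ 2) ^ (1 / p) := by positivity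
  have hYn : ∀ n : ℕ, 1 ≤ n → Y ^ n ≤ (1 - t * C)⁻¹ := by
    intro n hn
    have := key n hn
    rw [← rpow_natCast, ← rpow_mul hX0.le, mul_comm (n : ℝ), rpow_mul hX0.le, rpow_natCast,
      ← rpow_natCast (rexp _), ← rpow_mul (exp_pos _).le, mul_comm (n : ℝ),
      rpow_mul (exp_pos _).le, rpow_natCast] at this
    rw [hY, div_pow, div_le_iff₀ (by positivity)]
    exact this
  have hY1 : Y ≤ 1 := by
    by_contra hlt
    push Not at hlt
    obtain ⟨m, hm⟩ := pow_unbounded_of_one_lt (1 - t * C)⁻¹ hlt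
    have h1 := hYn (m + 1) (by omega)
    have h2 : Y ^ m ≤ Y ^ (m + 1) := pow_le_pow_right₀ hlt.le (by omega)
    linarith
  rw [hY, div_le_one hE] at hY1
  have h3 := rpow_le_rpow (by positivity) hY1 hq0.le
  rw [← rpow_mul hX0.le, show 1 / q * q = 1 by field_simp, rpow_one, ← rpow_mul (exp_pos _).le,
    ← exp_mul, hX, exp_neg, ← div_eq_mul_inv, div_le_iff₀ (exp_pos _), ← exp_add] at h3
  refine h3.trans (le_of_eq ?_)
  congr 1
  ring

/-- The lower bound. -/
theorem lower_bound {p q C : ℝ} (hp : 1 ≤ p) (hpq : p < q) (hC0 : 0 < C)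
    (H : ∀ n : ℕ, 1 ≤ n → ∀ f : Cube n → ℝ, lpNorm q f ≤ C ^ deg f * lpNorm p f) :
    Real.sqrt (2 * q / p - 1) ≤ C := by
  have hp0 : 0 < p := by linarith
  have hq : 1 ≤ q := by linarith
  have hlam : 1 < q / p := by rwa [lt_div_iff₀ hp0, one_mul]
  set lam := q / p with hlamdef
  set R := Real.sqrt (2 * q / p - 1) with hR
  have hR2 : R ^ 2 = 2 * lam - 1 := by
    rw [hR, Real.sq_sqrt (by rw [mul_div_assoc]; linarith), mul_div_assoc]
  have hR1 : 1 < R := by
    rw [hR]; exact Real.lt_sqrt_of_sq_lt (by rw [mul_div_assoc]; linarith)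
  by_contra hlt
  push Not at hlt
  set C' := max C 1 with hC'
  have hC1 : 1 ≤ C' := le_max_right _ _
  have hC'R : C' < R := max_lt hlt hR1
  have H' : ∀ n : ℕ, 1 ≤ n → ∀ f : Cube n → ℝ, lpNorm q f ≤ C' ^ deg f * lpNorm p f :=
    fun n hn f => (H n hn f).trans (mul_le_mul_of_nonneg_right
      (pow_le_pow_left₀ hC0.le (le_max_left _ _) _) (lpNorm_nonneg _ _))
  set t := 2 / (C' + R) with htdef
  have hCR : 0 < C' + R := by linarith
  have ht0 : 0 < t := by positivity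
  have ht1 : t * C' < 1 := by rw [htdef, div_mul_eq_mul_div, div_lt_one hCR]; linarith
  have ht2 : 1 < t * R := by rw [htdef, div_mul_eq_mul_div, one_lt_div hCR]; linarith
  have ht3 : 1 < (2 * lam - 1) * t ^ 2 := by rw [← hR2]; nlinarith
  set a := 2 * lam ^ 2 * t ^ 2 with ha
  set b := lam * (1 + t ^ 2) with hb
  have hb0 : 0 < b := by positivity
  have hab : b < a := by rw [ha, hb]; nlinarith
  have hall : ∀ s : ℝ, 0 < s → 1 + a * s ≤ rexp (b * s) := by
    intro s hs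
    have h1 := cosh_bound hp hq hC1 H' ht0.le ht1 (Real.sqrt s)
    have h2 := one_add_le_cosh (y := 2 * (q / p) * Real.sqrt s * t) (by positivity)
    rw [← hlamdef] at h1 h2
    have h3 : (2 * lam * Real.sqrt s * t) ^ 2 / 2 = a * s := by
      rw [ha, mul_pow, mul_pow, Real.sq_sqrt hs.le]; ring
    rw [h3] at h2
    rw [Real.sq_sqrt hs.le, show lam * s * (1 + t ^ 2) = b * s by rw [hb]; ring] at h1
    exact h2.trans h1
  set s := min (1 / b) ((a - b) / (2 * b ^ 2)) with hs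
  have hs0 : 0 < s := lt_min (by positivity) (div_pos (by linarith) (by positivity))
  have hs1 : b * s ≤ 1 := by
    have : s ≤ 1 / b := min_le_left _ _
    rwa [le_div_iff₀ hb0, mul_comm] at this
  have hs2 : s * (2 * b ^ 2) ≤ a - b := by
    have : s ≤ (a - b) / (2 * b ^ 2) := min_le_right _ _
    rwa [le_div_iff₀ (by positivity)] at this
  have h4 := Real.abs_exp_sub_one_sub_id_le (x := b * s)
    (by rw [abs_of_nonneg (by positivity)]; exact hs1)
  have h5 := (abs_le.1 h4).2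
  have h6 := hall s hs0
  have h7 : (a - b) * s ≤ (b * s) ^ 2 := by linarith
  have h8 : a - b ≤ b ^ 2 * s := by
    have : (a - b) * s ≤ (b ^ 2 * s) * s := by nlinarith
    exact le_of_mul_le_mul_right this hs0
  have h9 : 0 < b ^ 2 * s := by positivity
  nlinarith

end Pool.Agent.P.MP_961199_an
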