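import Pool.Agent.P.MP_961199_an.TwoPoint

/-!
The holomorphic multipliers used in the induction step of the upper bound.
-/

set_option autoImplicit false

namespace Pool.Agent.P.MP_961199_an

open Real Set Metric

lemma real_step {p r ρ A B E α β K K' : ℝ} (hp : 1 ≤ p) (hr : 0 < r) (hρ : 0 ≤ ρ)
    (hA : 0 < A) (hB : 0 < B) (hα : 0 ≤ α) (hβ : 0 ≤ β) (hK : 0 < K) (hK' : 0 ≤ K')
    (h1 : r * A ^ 2 + ρ * E ^ 2 = K) (h2 : r * B ^ 2 - ρ * E ^ 2 = K') :
    (K⁻¹ * (K / r) ^ (1 / p) * r * A ^ 2 * A ^ (-2 / p) * α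
        + K⁻¹ * (K / r) ^ (1 / p) * ρ * E ^ 2 * B ^ (-2 / p) * β) ^ p
      + ((K' / r) ^ (1 / p) * B ^ (-2 / p) * β) ^ p ≤ α ^ p + β ^ p := by
  have hp0 : 0 < p := by linarith
  set x := A ^ (-2 / p) * α with hx
  set y := B ^ (-2 / p) * β with hy
  have hx0 : 0 ≤ x := mul_nonneg (rpow_nonneg hA.le _) hα
  have hy0 : 0 ≤ y := mul_nonneg (rpow_nonneg hB.le _) hβ
  have hxp : x ^ p = (A ^ 2)⁻¹ * α ^ p := by
    rw [hx, mul_rpow (rpow_nonneg hA.le _) hα, ← rpow_mul hA.le,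
      show -2 / p * p = -((2 : ℕ) : ℝ) by field_simp; norm_num, rpow_neg hA.le, rpow_natCast]
  have hyp : y ^ p = (B ^ 2)⁻¹ * β ^ p := by
    rw [hy, mul_rpow (rpow_nonneg hB.le _) hβ, ← rpow_mul hB.le,
      show -2 / p * p = -((2 : ℕ) : ℝ) by field_simp; norm_num, rpow_neg hB.le, rpow_natCast]
  have hw1 : 0 ≤ r * A ^ 2 / K := by positivity
  have hw2 : 0 ≤ ρ * E ^ 2 / K := by positivity
  have hw : r * A ^ 2 / K + ρ * E ^ 2 / K = 1 := by rw [← add_div, h1, div_self hK.ne']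
  have hconv := (convexOn_rpow hp).2 (mem_Ici.2 hx0) (mem_Ici.2 hy0) hw1 hw2 hw
  simp only [smul_eq_mul] at hconv
  have e1 : K⁻¹ * (K / r) ^ (1 / p) * r * A ^ 2 * A ^ (-2 / p) * α
        + K⁻¹ * (K / r) ^ (1 / p) * ρ * E ^ 2 * B ^ (-2 / p) * β
      = (K / r) ^ (1 / p) * (r * A ^ 2 / K * x + ρ * E ^ 2 / K * y) := by
    rw [hx, hy]; ring
  have e2 : (K' / r) ^ (1 / p) * B ^ (-2 / p) * β = (K' / r) ^ (1 / p) * y := by
    rw [hy]; ring
  have hKr : 0 ≤ K / r := by positivity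
  have hKr' : 0 ≤ K' / r := by positivity
  rw [e1, e2, mul_rpow (rpow_nonneg hKr _) (by positivity), mul_rpow (rpow_nonneg hKr' _) hy0,
    ← rpow_mul hKr, ← rpow_mul hKr', show 1 / p * p = 1 by field_simp, rpow_one, rpow_one]
  have h3 : K / r * (r * A ^ 2 / K * x + ρ * E ^ 2 / K * y) ^ p
      ≤ K / r * (r * A ^ 2 / K * x ^ p + ρ * E ^ 2 / K * y ^ p) :=
    mul_le_mul_of_nonneg_left hconv hKr
  have h4 : K / r * (r * A ^ 2 / K * x ^ p + ρ * E ^ 2 / K * y ^ p) + K' / r * y ^ p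
      = α ^ p + β ^ p := by
    rw [hxp, hyp, ← h2]
    field_simp
    ring
  linarith

lemma normSq_one_add {t : ℝ} {z : ℂ} (hz : ‖z‖ = 1) :
    ‖1 + (t : ℂ) * z‖ ^ 2 = 1 + t ^ 2 + 2 * t * z.re := by
  have h : z.re ^ 2 + z.im ^ 2 = 1 := by
    have := Complex.sq_norm z
    rw [hz, Complex.normSq_apply] at this
    nlinarith
  rw [Complex.sq_norm, Complex.normSq_apply]
  simp only [Complex.add_re, Complex.one_re, Complex.mul_re, Complex.ofReal_re, Complex.ofReal_im,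
    zero_mul, sub_zero, Complex.add_im, Complex.one_im, Complex.mul_im, add_zero, zero_add]
  linear_combination t ^ 2 * h

lemma norm_add_real {t : ℝ} {z : ℂ} (hz : ‖z‖ = 1) : ‖z + (t : ℂ)‖ = ‖1 + (t : ℂ) * z‖ := by
  have h : z.re ^ 2 + z.im ^ 2 = 1 := by
    have := Complex.sq_norm z
    rw [hz, Complex.normSq_apply] at this
    nlinarith
  apply (pow_left_inj₀ (norm_nonneg _) (norm_nonneg _) two_ne_zero).1
  rw [normSq_one_add hz, Complex.sq_norm, Complex.normSq_apply]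
  simp only [Complex.add_re, Complex.ofReal_re, Complex.add_im, Complex.ofReal_im, add_zero]
  linear_combination h

lemma slit {t : ℝ} (ht : |t| < 1) {z : ℂ} (hz : z ∈ closedBall (0 : ℂ) 1) :
    1 + (t : ℂ) * z ∈ Complex.slitPlane := by
  apply Complex.mem_slitPlane_of_norm_lt_one
  rw [norm_mul, Complex.norm_real, Real.norm_eq_abs]
  have : ‖z‖ ≤ 1 := by simpa using hz
  calc |t| * ‖z‖ ≤ |t| * 1 := by gcongr
    _ < 1 := by linarith

lemma diff_cpow {t : ℝ} (ht : |t| < 1) (s : ℂ) :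
    DifferentiableOn ℂ (fun z : ℂ => (1 + (t : ℂ) * z) ^ s) (closedBall 0 1) := by
  intro z hz
  apply DifferentiableAt.differentiableWithinAt
  exact DifferentiableAt.cpow_const (by fun_prop) (slit ht hz)

/-- The multipliers. -/
lemma multipliers {p r ρ : ℝ} (hp : 1 ≤ p) (hr0 : 0 < r) (hr1 : r < 1) (hρ0 : 0 ≤ ρ)
    (hρ1 : ρ ≤ r) :
    ∃ s τ k : ℂ → ℂ, DifferentiableOn ℂ s (closedBall 0 1) ∧
      DifferentiableOn ℂ τ (closedBall 0 1) ∧ DifferentiableOn ℂ k (closedBall 0 1) ∧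
      (∃ u₀ : ℂ, ‖u₀‖ ^ p = (r + ρ) / (r * (1 + ρ * r)) ∧
        ∀ a b : ℂ, s r * a + τ r * b = u₀ * (a + r * b)) ∧
      ‖k r‖ ^ p = (r - ρ) / (r * (1 - ρ * r)) ∧
      ∀ z : ℂ, ‖z‖ = 1 → ∀ a b : ℂ,
        ‖s z * a + τ z * b‖ ^ p + ‖k z * (a - z * b)‖ ^ p
          ≤ ‖a + z * b‖ ^ p + ‖a - z * b‖ ^ p := by
  have hp0 : 0 < p := by linarith
  have hρabs : |ρ| < 1 := by rw [abs_of_nonneg hρ0]; linarith
  have hρabs' : |-ρ| < 1 := by rwa [abs_neg]
  have hρr : ρ * r < 1 := by nlinarith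
  have hρr0 : 0 ≤ ρ * r := by positivity
  set K := (r + ρ) * (1 + r * ρ) with hK
  set K' := (r - ρ) * (1 - r * ρ) with hK'
  have hK0 : 0 < K := by positivity
  have hK0' : 0 ≤ K' := mul_nonneg (by linarith) (by nlinarith)
  set c : ℝ := K⁻¹ * (K / r) ^ (1 / p) with hc
  set c' : ℝ := (K' / r) ^ (1 / p) with hc'
  have hc0 : 0 ≤ c := by positivity
  have hc0' : 0 ≤ c' := by positivity
  set e : ℝ := -2 / p with he
  let u : ℂ → ℂ := fun z => (c : ℂ) * r * (z + ρ) * (1 + ρ * z) * (1 + ρ * z) ^ (e : ℂ)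
  let w : ℂ → ℂ := fun z =>
    (c : ℂ) * ρ * (z + ((-r : ℝ) : ℂ)) * (1 + ((-r : ℝ) : ℂ) * z) * (1 + ((-ρ : ℝ) : ℂ) * z) ^ (e : ℂ)
  let k : ℂ → ℂ := fun z => (c' : ℂ) * (1 + ((-ρ : ℝ) : ℂ) * z) ^ (e : ℂ)
  have hu : DifferentiableOn ℂ u (closedBall 0 1) :=
    DifferentiableOn.mul (by fun_prop) (diff_cpow hρabs _)
  have hw : DifferentiableOn ℂ w (closedBall 0 1) :=
    DifferentiableOn.mul (by fun_prop) (diff_cpow hρabs' _)
  have hk : DifferentiableOn ℂ k (closedBall 0 1) :=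
    DifferentiableOn.mul (by fun_prop) (diff_cpow hρabs' _)
  have huw0 : u 0 + w 0 = 0 := by
    simp only [u, w, mul_zero, add_zero, zero_add, Complex.one_cpow, mul_one]
    push_cast
    ring
  let s : ℂ → ℂ := dslope (fun z => u z + w z) 0
  have hs : DifferentiableOn ℂ s (closedBall 0 1) :=
    (Complex.differentiableOn_dslope (closedBall_mem_nhds 0 one_pos)).2 (hu.add hw)
  have hsz : ∀ z : ℂ, z * s z = u z + w z := by
    intro z
    have := sub_smul_dslope (fun z => u z + w z) 0 z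
    simpa only [sub_zero, smul_eq_mul, huw0] using this
  have hid : ∀ z a b : ℂ, z * (s z * a + (u z - w z) * b) = u z * (a + z * b) + w z * (a - z * b) := by
    intro z a b
    linear_combination a * hsz z
  refine ⟨s, fun z => u z - w z, k, hs, hu.sub hw, hk, ⟨u r / r, ?_, ?_⟩, ?_, ?_⟩
  · have hrC : (r : ℂ) ≠ 0 := by exact_mod_cast hr0.ne'
    have e1 : u r / r = (c : ℂ) * (r + ρ) * (1 + ρ * r) * (1 + ρ * r) ^ (e : ℂ) := by
      simp only [u]; field_simp
    have e2 : ‖u r / r‖ = c * (r + ρ) * (1 + ρ * r) * (1 + ρ * r) ^ e := by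
      rw [e1, norm_mul, norm_mul, norm_mul, Complex.norm_cpow_real]
      have h1 : ‖(r : ℂ) + ρ‖ = r + ρ := by
        rw [← Complex.ofReal_add, Complex.norm_real, Real.norm_of_nonneg (by linarith)]
      have h2 : ‖1 + (ρ : ℂ) * r‖ = 1 + ρ * r := by
        rw [← Complex.ofReal_mul, ← Complex.ofReal_one, ← Complex.ofReal_add, Complex.norm_real,
          Real.norm_of_nonneg (by linarith)]
      rw [h1, h2, Complex.norm_real, Real.norm_of_nonneg hc0]
    have e3 : c * (r + ρ) * (1 + ρ * r) = (K / r) ^ (1 / p) := by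
      rw [hc, hK]; field_simp
    have hKr : 0 ≤ K / r := by positivity
    rw [e2, e3, mul_rpow (rpow_nonneg hKr _) (rpow_nonneg (by linarith) _), ← rpow_mul hKr,
      ← rpow_mul (by linarith), show 1 / p * p = 1 by field_simp, rpow_one, he,
      show -2 / p * p = -((2 : ℕ) : ℝ) by field_simp; norm_num, rpow_neg (by linarith),
      rpow_natCast, hK]
    field_simp
  · intro a b
    have hrC : (r : ℂ) ≠ 0 := by exact_mod_cast hr0.ne'
    have hwr : w r = 0 := by simp [w]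
    have := hid r a b
    rw [hwr] at this
    apply mul_left_cancel₀ hrC
    beta_reduce
    rw [hwr, this]
    field_simp
    ring
  · have e2 : ‖k r‖ = c' * (1 - ρ * r) ^ e := by
      simp only [k]
      rw [norm_mul, Complex.norm_cpow_real]
      have h2 : ‖1 + ((-ρ : ℝ) : ℂ) * r‖ = 1 - ρ * r := by
        rw [← Complex.ofReal_mul, ← Complex.ofReal_one, ← Complex.ofReal_add, Complex.norm_real,
          Real.norm_of_nonneg (by linarith)]
        ring
      rw [h2, Complex.norm_real, Real.norm_of_nonneg hc0']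
    have hKr : 0 ≤ K' / r := by positivity
    have hne : 1 - ρ * r ≠ 0 := by linarith
    rw [e2, hc', mul_rpow (rpow_nonneg hKr _) (rpow_nonneg (by linarith) _), ← rpow_mul hKr,
      ← rpow_mul (by linarith), show 1 / p * p = 1 by field_simp, rpow_one, he,
      show -2 / p * p = -((2 : ℕ) : ℝ) by field_simp; norm_num, rpow_neg (by linarith),
      rpow_natCast, hK']
    field_simp
  · intro z hz a b
    have hzb : z ∈ closedBall (0 : ℂ) 1 := by simp [hz]
    set A := ‖1 + (ρ : ℂ) * z‖ with hA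
    set B := ‖1 + ((-ρ : ℝ) : ℂ) * z‖ with hB
    set E := ‖1 + ((-r : ℝ) : ℂ) * z‖ with hE
    have hA0 : 0 < A := norm_pos_iff.2 (Complex.slitPlane_ne_zero (slit hρabs hzb))
    have hB0 : 0 < B := norm_pos_iff.2 (Complex.slitPlane_ne_zero (slit hρabs' hzb))
    have hA2 : A ^ 2 = 1 + ρ ^ 2 + 2 * ρ * z.re := normSq_one_add hz
    have hB2 : B ^ 2 = 1 + (-ρ) ^ 2 + 2 * (-ρ) * z.re := normSq_one_add hz
    have hE2 : E ^ 2 = 1 + (-r) ^ 2 + 2 * (-r) * z.re := normSq_one_add hz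
    have hnu : ‖u z‖ = c * r * A ^ 2 * A ^ e := by
      simp only [u]
      rw [norm_mul, norm_mul, norm_mul, norm_mul, Complex.norm_cpow_real, norm_add_real hz,
        Complex.norm_real, Complex.norm_real, Real.norm_of_nonneg hc0, Real.norm_of_nonneg hr0.le]
      ring
    have hnw : ‖w z‖ = c * ρ * E ^ 2 * B ^ e := by
      simp only [w]
      rw [norm_mul, norm_mul, norm_mul, norm_mul, Complex.norm_cpow_real, norm_add_real hz,
        Complex.norm_real, Complex.norm_real, Real.norm_of_nonneg hc0, Real.norm_of_nonneg hρ0]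
      ring
    have hnk : ‖k z‖ = c' * B ^ e := by
      simp only [k]
      rw [norm_mul, Complex.norm_cpow_real, Complex.norm_real, Real.norm_of_nonneg hc0']
    have hG : ‖s z * a + (u z - w z) * b‖ ≤ ‖u z‖ * ‖a + z * b‖ + ‖w z‖ * ‖a - z * b‖ := by
      have : ‖s z * a + (u z - w z) * b‖ = ‖u z * (a + z * b) + w z * (a - z * b)‖ := by
        rw [← hid, norm_mul, hz, one_mul]
      rw [this, ← norm_mul, ← norm_mul]
      exact norm_add_le _ _
    have hmain := real_step (p := p) (r := r) (ρ := ρ) (A := A) (B := B) (E := E)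
      (α := ‖a + z * b‖) (β := ‖a - z * b‖) (K := K) (K' := K') hp hr0 hρ0 hA0 hB0
      (norm_nonneg _) (norm_nonneg _) hK0 hK0' (by rw [hA2, hE2, hK]; ring)
      (by rw [hB2, hE2, hK']; ring)
    have h5 := rpow_le_rpow (norm_nonneg _) hG hp0.le
    rw [hnu, hnw] at h5
    rw [norm_mul (k z), hnk]
    refine le_trans ?_ hmain
    exact add_le_add h5 le_rfl

end Pool.Agent.P.MP_961199_an
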