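import Mathlib

/-!
The classical two-point inequality of Bonami, and the one-step choice of the parameter `ρ`.
-/

set_option autoImplicit false

namespace Pool.Agent.P.MP_961199_an

open Real Set

/-- `(1+t)^s - (1-t)^s ≥ 2 s t` for `0 ≤ s ≤ 1`, `0 ≤ t ≤ 1`. -/
lemma tp0 {s : ℝ} (hs0 : 0 < s) (hs1 : s ≤ 1) {t : ℝ} (ht0 : 0 ≤ t) (ht1 : t ≤ 1) :
    2 * s * t ≤ (1 + t) ^ s - (1 - t) ^ s := by
  let ψ : ℝ → ℝ := fun t => (1 + t) ^ s - (1 - t) ^ s - 2 * s * t
  have hd : ∀ x ∈ Ioo (0 : ℝ) 1,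
      HasDerivAt ψ (s * (1 + x) ^ (s - 1) + s * (1 - x) ^ (s - 1) - 2 * s) x := by
    intro x hx
    have h1 : HasDerivAt (fun t : ℝ => (1 + t) ^ s) (1 * s * (1 + x) ^ (s - 1)) x :=
      ((hasDerivAt_id x).const_add 1).rpow_const (Or.inl (by simp only [id]; linarith [hx.1]))
    have h2 : HasDerivAt (fun t : ℝ => (1 - t) ^ s) ((-1) * s * (1 - x) ^ (s - 1)) x :=
      ((hasDerivAt_id x).const_sub 1).rpow_const (Or.inl (by simp only [id]; linarith [hx.2]))
    have h3 : HasDerivAt (fun t : ℝ => 2 * s * t) (2 * s * 1) x := (hasDerivAt_id x).const_mul _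
    exact ((h1.sub h2).sub h3).congr_deriv (by ring)
  have hc : ContinuousOn ψ (Icc 0 1) := by
    refine Continuous.continuousOn ?_
    refine (Continuous.sub ?_ ?_).sub (by fun_prop)
    · exact (continuous_const.add continuous_id).rpow_const (fun _ => Or.inr hs0.le)
    · exact (continuous_const.sub continuous_id).rpow_const (fun _ => Or.inr hs0.le)
  have hm : MonotoneOn ψ (Icc 0 1) := by
    apply monotoneOn_of_deriv_nonneg (convex_Icc 0 1) hc
    · rw [interior_Icc]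
      exact fun x hx => (hd x hx).differentiableAt.differentiableWithinAt
    · rw [interior_Icc]
      intro x hx
      rw [(hd x hx).deriv]
      have ha : 0 < (1 + x) ^ (s - 1) := rpow_pos_of_pos (by linarith [hx.1]) _
      have hb : 0 < (1 - x) ^ (s - 1) := rpow_pos_of_pos (by linarith [hx.2]) _
      have hab : 1 ≤ (1 + x) ^ (s - 1) * (1 - x) ^ (s - 1) := by
        rw [← mul_rpow (by linarith [hx.1]) (by linarith [hx.2])]
        apply one_le_rpow_of_pos_of_le_one_of_nonpos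
        · nlinarith [hx.1, hx.2]
        · nlinarith [hx.1, hx.2]
        · linarith
      have : 2 ≤ (1 + x) ^ (s - 1) + (1 - x) ^ (s - 1) := by
        by_contra hlt
        push Not at hlt
        nlinarith [sq_nonneg ((1 + x) ^ (s - 1) - (1 - x) ^ (s - 1))]
      nlinarith
  have := hm (left_mem_Icc.2 zero_le_one) ⟨ht0, ht1⟩ ht0
  simp only [ψ, add_zero, sub_zero, one_rpow, mul_zero, sub_self] at this
  linarith

/-- `(1+t)^P + (1-t)^P ≥ 2 + P (P-1) t^2` for `1 < P ≤ 2`, `0 ≤ t ≤ 1`. -/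
lemma tp1 {P : ℝ} (hP1 : 1 < P) (hP2 : P ≤ 2) {t : ℝ} (ht0 : 0 ≤ t) (ht1 : t ≤ 1) :
    2 + P * (P - 1) * t ^ 2 ≤ (1 + t) ^ P + (1 - t) ^ P := by
  let φ : ℝ → ℝ := fun t => (1 + t) ^ P + (1 - t) ^ P - P * (P - 1) * t ^ 2
  have hd : ∀ x : ℝ,
      HasDerivAt φ (P * (1 + x) ^ (P - 1) - P * (1 - x) ^ (P - 1) - P * (P - 1) * (2 * x)) x := by
    intro x
    have h1 : HasDerivAt (fun t : ℝ => (1 + t) ^ P) (1 * P * (1 + x) ^ (P - 1)) x :=
      ((hasDerivAt_id x).const_add 1).rpow_const (Or.inr hP1.le)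
    have h2 : HasDerivAt (fun t : ℝ => (1 - t) ^ P) ((-1) * P * (1 - x) ^ (P - 1)) x :=
      ((hasDerivAt_id x).const_sub 1).rpow_const (Or.inr hP1.le)
    have h3 : HasDerivAt (fun t : ℝ => P * (P - 1) * t ^ 2) (P * (P - 1) * (2 * x)) x := by
      simpa using (hasDerivAt_pow 2 x).const_mul (P * (P - 1))
    exact ((h1.add h2).sub h3).congr_deriv (by ring)
  have hm : MonotoneOn φ (Icc 0 1) := by
    apply monotoneOn_of_deriv_nonneg (convex_Icc 0 1)
    · exact fun x _ => (hd x).continuousAt.continuousWithinAt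
    · exact fun x _ => (hd x).differentiableAt.differentiableWithinAt
    · rw [interior_Icc]
      intro x hx
      rw [(hd x).deriv]
      have := tp0 (s := P - 1) (by linarith) (by linarith) hx.1.le hx.2.le
      have hP : 0 < P := by linarith
      nlinarith
  have := hm (left_mem_Icc.2 zero_le_one) ⟨ht0, ht1⟩ ht0
  simp only [φ, add_zero, sub_zero, one_rpow] at this
  nlinarith

/-- The two-point inequality from `L^P` to `L^2`, `1 < P ≤ 2`, for nonnegative functions. -/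
lemma tp2 {P : ℝ} (hP1 : 1 < P) (hP2 : P ≤ 2) {A B : ℝ} (hB : 0 ≤ B) (hAB : B ≤ A) :
    ((A + B) / 2) ^ 2 + (P - 1) * ((A - B) / 2) ^ 2 ≤ ((A ^ P + B ^ P) / 2) ^ (2 / P) := by
  have hP : 0 < P := by linarith
  rcases (add_nonneg (hB.trans hAB) hB).eq_or_lt with h0 | h0
  · have hA0 : A = 0 := by linarith
    have hB0 : B = 0 := by linarith
    subst hA0; subst hB0
    simp only [add_zero, zero_div, ne_eq, OfNat.ofNat_ne_zero, not_false_eq_true, zero_pow,
      sub_self, mul_zero]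
    positivity
  set M := (A + B) / 2 with hM
  have hM0 : 0 < M := by positivity
  set t := (A - B) / (A + B) with ht
  have ht0 : 0 ≤ t := div_nonneg (by linarith) h0.le
  have ht1 : t ≤ 1 := by rw [ht, div_le_one h0]; linarith
  have hA : A = M * (1 + t) := by rw [hM, ht]; field_simp; ring
  have hB' : B = M * (1 - t) := by rw [hM, ht]; field_simp; ring
  have hD : (A - B) / 2 = M * t := by rw [hM, ht]; field_simp
  have h1 := tp1 hP1 hP2 ht0 ht1
  have hbern : (1 + (P - 1) * t ^ 2) ^ (P / 2) ≤ 1 + P / 2 * ((P - 1) * t ^ 2) :=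
    rpow_one_add_le_one_add_mul_self (by nlinarith [sq_nonneg t]) (by positivity) (by linarith)
  have hy : 0 ≤ 1 + (P - 1) * t ^ 2 := by nlinarith [sq_nonneg t]
  have h2 : (1 + (P - 1) * t ^ 2) ^ (P / 2) ≤ ((1 + t) ^ P + (1 - t) ^ P) / 2 := by linarith
  have h3 : 1 + (P - 1) * t ^ 2 ≤ (((1 + t) ^ P + (1 - t) ^ P) / 2) ^ (2 / P) := by
    have := rpow_le_rpow (rpow_nonneg hy _) h2 (show 0 ≤ 2 / P by positivity)
    rwa [← rpow_mul hy, show P / 2 * (2 / P) = 1 by field_simp, rpow_one] at this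
  have h4 : (A ^ P + B ^ P) / 2 = M ^ P * (((1 + t) ^ P + (1 - t) ^ P) / 2) := by
    rw [hA, hB', mul_rpow hM0.le (by linarith), mul_rpow hM0.le (by linarith)]
    ring
  have hG : 0 ≤ ((1 + t) ^ P + (1 - t) ^ P) / 2 := by
    have := rpow_nonneg (show 0 ≤ 1 + t by linarith) P
    have := rpow_nonneg (show 0 ≤ 1 - t by linarith) P
    positivity
  rw [h4, hD, mul_rpow (rpow_nonneg hM0.le _) hG, ← rpow_mul hM0.le,
    show P * (2 / P) = ((2 : ℕ) : ℝ) by field_simp; norm_num, rpow_natCast]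
  nlinarith [sq_nonneg M]

/-- The two-point inequality from `L^2` to `L^Q`, `2 ≤ Q`. -/
lemma tp3 {Q : ℝ} (hQ : 2 ≤ Q) {t : ℝ} (ht0 : 0 ≤ t) (ht1 : t ≤ 1) :
    (((1 + t) ^ Q + (1 - t) ^ Q) / 2) ^ (2 / Q) ≤ 1 + (Q - 1) * t ^ 2 := by
  have hQ1 : 0 < Q - 1 := by linarith
  have hQ0 : 0 < Q := by linarith
  set P := Q / (Q - 1) with hP
  have hP1 : 1 < P := by rw [hP, lt_div_iff₀ hQ1]; linarith
  have hP2 : P ≤ 2 := by rw [hP, div_le_iff₀ hQ1]; linarith
  have ha : 0 < 1 + t := by linarith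
  have hb : 0 ≤ 1 - t := by linarith
  set A := (1 + t) ^ (Q - 1) with hA
  set B := (1 - t) ^ (Q - 1) with hB
  have hB0 : 0 ≤ B := rpow_nonneg hb _
  have hAB : B ≤ A := rpow_le_rpow hb (by linarith) hQ1.le
  have h2 := tp2 hP1 hP2 hB0 hAB
  have hAP : A ^ P = (1 + t) ^ Q := by
    rw [hA, ← rpow_mul ha.le, hP]; congr 1; field_simp
  have hBP : B ^ P = (1 - t) ^ Q := by
    rw [hB, ← rpow_mul hb, hP]; congr 1; field_simp
  have hA1 : (1 + t) ^ Q = A * (1 + t) := by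
    rw [hA, ← rpow_add_one' ha.le (by linarith)]; congr 1; ring
  have hB1 : (1 - t) ^ Q = B * (1 - t) := by
    rw [hB, ← rpow_add_one' hb (by linarith)]; congr 1; ring
  rw [hAP, hBP] at h2
  set G := ((1 + t) ^ Q + (1 - t) ^ Q) / 2 with hG
  have hG0 : 0 < G := by
    have := rpow_pos_of_pos ha Q
    have := rpow_nonneg hb Q
    positivity
  have hGeq : G = (A + B) / 2 + t * ((A - B) / 2) := by rw [hG, hA1, hB1]; ring
  have hP' : P - 1 = 1 / (Q - 1) := by rw [hP]; field_simp; ring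
  have hcs : G ^ 2 ≤ (1 + (Q - 1) * t ^ 2) *
      (((A + B) / 2) ^ 2 + (P - 1) * ((A - B) / 2) ^ 2) := by
    rw [hGeq, hP']
    set M := (A + B) / 2
    set D := (A - B) / 2
    have : (1 + (Q - 1) * t ^ 2) * (M ^ 2 + 1 / (Q - 1) * D ^ 2) - (M + t * D) ^ 2
        = ((Q - 1) * t * M - D) ^ 2 / (Q - 1) := by field_simp; ring
    have h' : 0 ≤ ((Q - 1) * t * M - D) ^ 2 / (Q - 1) := by positivity
    linarith
  have hy : 0 ≤ 1 + (Q - 1) * t ^ 2 := by positivity
  have h5 : G ^ 2 ≤ (1 + (Q - 1) * t ^ 2) * G ^ (2 / P) :=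
    hcs.trans (mul_le_mul_of_nonneg_left h2 hy)
  have h6 : G ^ 2 = G ^ (2 / Q) * G ^ (2 / P) := by
    rw [← rpow_add hG0, show 2 / Q + 2 / P = ((2 : ℕ) : ℝ) by rw [hP]; field_simp; push_cast; ring,
      rpow_natCast]
  rw [h6] at h5
  exact le_of_mul_le_mul_right h5 (rpow_pos_of_pos hG0 _)

/-- Choice of the parameter in the induction step. -/
lemma choose_rho {lam r : ℝ} (hlam : 1 ≤ lam) (hr0 : 0 < r) (hr : (2 * lam - 1) * r ^ 2 = 1)
    {m₁ m₂ : ℝ} (h2 : 0 ≤ m₂) (h12 : m₂ ≤ m₁) :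
    ∃ ρ : ℝ, 0 ≤ ρ ∧ ρ ≤ r ∧
      2 * ((m₁ ^ lam + m₂ ^ lam) / 2) ^ (1 / lam) ≤
        (r + ρ) / (r * (1 + ρ * r)) * m₁ + (r - ρ) / (r * (1 - ρ * r)) * m₂ := by
  have hlam0 : 0 < lam := by linarith
  have hr1 : r ^ 2 ≤ 1 := by nlinarith [sq_nonneg r]
  -- the key inequality on the curve
  have key : ∀ ρ c : ℝ, 0 ≤ ρ → ρ ≤ r → 0 ≤ c →
      2 * (((c * (1 + ρ * r) ^ 2) ^ lam + (c * (1 - ρ * r) ^ 2) ^ lam) / 2) ^ (1 / lam)
        ≤ 2 * c * (1 + ρ ^ 2) := by
    intro ρ c h0 h1 hc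
    have ht0 : 0 ≤ ρ * r := by positivity
    have ht1 : ρ * r ≤ 1 := by nlinarith
    have h3 := tp3 (Q := 2 * lam) (by linarith) ht0 ht1
    have e1 : (c * (1 + ρ * r) ^ 2) ^ lam = c ^ lam * (1 + ρ * r) ^ (2 * lam) := by
      rw [mul_rpow hc (by positivity), rpow_mul (by linarith), rpow_two]
    have e2 : (c * (1 - ρ * r) ^ 2) ^ lam = c ^ lam * (1 - ρ * r) ^ (2 * lam) := by
      rw [mul_rpow hc (by positivity), rpow_mul (by linarith), rpow_two]
    have hG : 0 ≤ ((1 + ρ * r) ^ (2 * lam) + (1 - ρ * r) ^ (2 * lam)) / 2 := by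
      have := rpow_nonneg (show 0 ≤ 1 + ρ * r by linarith) (2 * lam)
      have := rpow_nonneg (show 0 ≤ 1 - ρ * r by linarith) (2 * lam)
      positivity
    rw [e1, e2, ← mul_add, mul_div_assoc, mul_rpow (rpow_nonneg hc _) hG, ← rpow_mul hc,
      show lam * (1 / lam) = 1 by field_simp, rpow_one]
    rw [show 2 / (2 * lam) = 1 / lam by field_simp,
      show (2 * lam - 1) * (ρ * r) ^ 2 = ρ ^ 2 by rw [mul_pow]; linear_combination ρ ^ 2 * hr] at h3
    nlinarith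
  have h1 : 0 ≤ m₁ := h2.trans h12
  by_cases hcase : m₂ * (1 + r ^ 2) ^ 2 ≤ m₁ * (1 - r ^ 2) ^ 2
  · refine ⟨r, hr0.le, le_rfl, ?_⟩
    set c := m₁ / (1 + r * r) ^ 2 with hc
    have hc0 : 0 ≤ c := by positivity
    have e1 : m₁ = c * (1 + r * r) ^ 2 := by rw [hc]; field_simp
    have e2 : m₂ ≤ c * (1 - r * r) ^ 2 := by
      rw [hc, div_mul_eq_mul_div, le_div_iff₀ (by positivity)]
      nlinarith
    have h4 := key r c hr0.le le_rfl hc0
    rw [← e1] at h4
    have h5 : ((m₁ ^ lam + m₂ ^ lam) / 2) ^ (1 / lam)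
        ≤ ((m₁ ^ lam + (c * (1 - r * r) ^ 2) ^ lam) / 2) ^ (1 / lam) := by
      have := rpow_nonneg h1 lam
      have := rpow_nonneg h2 lam
      have := rpow_le_rpow h2 e2 hlam0.le
      apply rpow_le_rpow (by positivity) (by linarith) (by positivity)
    have h6 : (r + r) / (r * (1 + r * r)) * m₁ = 2 * c * (1 + r ^ 2) := by
      rw [hc]; field_simp; ring
    rw [sub_self, zero_div, zero_mul, add_zero, h6]
    linarith
  · push Not at hcase
    set a := Real.sqrt m₁ with ha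
    set b := Real.sqrt m₂ with hb
    have ha2 : a ^ 2 = m₁ := Real.sq_sqrt h1
    have hb2 : b ^ 2 = m₂ := Real.sq_sqrt h2
    have ha0 : 0 ≤ a := Real.sqrt_nonneg _
    have hb0 : 0 ≤ b := Real.sqrt_nonneg _
    have hba : b ≤ a := Real.sqrt_le_sqrt h12
    have hlt : a * (1 - r ^ 2) < b * (1 + r ^ 2) := by
      apply lt_of_pow_lt_pow_left₀ 2 (by positivity)
      rw [mul_pow, mul_pow, ha2, hb2]; exact hcase
    have hbpos : 0 < b := by
      have : 0 ≤ a * (1 - r ^ 2) := mul_nonneg ha0 (by linarith)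
      have h' : 0 < b * (1 + r ^ 2) := by linarith
      exact (mul_pos_iff_of_pos_right (by positivity)).1 h'
    have hab : 0 < a + b := by linarith
    set t := (a - b) / (a + b) with ht
    have ht0 : 0 ≤ t := div_nonneg (by linarith) hab.le
    have htr : t < r ^ 2 := by rw [ht, div_lt_iff₀ hab]; nlinarith
    have ht1 : t < 1 := by linarith
    set ρ := t / r with hρ
    have hρr : ρ * r = t := by rw [hρ]; field_simp
    have hρ0 : 0 ≤ ρ := by positivity
    have hρ1 : ρ ≤ r := by rw [hρ, div_le_iff₀ hr0]; nlinarith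
    refine ⟨ρ, hρ0, hρ1, ?_⟩
    set c := ((a + b) / 2) ^ 2 with hc
    have hc0 : 0 ≤ c := by positivity
    have e1 : m₁ = c * (1 + ρ * r) ^ 2 := by
      rw [hρr, ← ha2, hc, ht]; field_simp; ring
    have e2 : m₂ = c * (1 - ρ * r) ^ 2 := by
      rw [hρr, ← hb2, hc, ht]; field_simp; ring
    have h4 := key ρ c hρ0 hρ1 hc0
    rw [← e1, ← e2] at h4
    refine h4.trans (le_of_eq ?_)
    have hp1 : (1 + ρ * r) ≠ 0 := by rw [hρr]; linarith
    have hp2 : (1 - ρ * r) ≠ 0 := by rw [hρr]; linarith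
    rw [e1, e2]
    field_simp
    ring

end Pool.Agent.P.MP_961199_an
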