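import Pool.Agent.P.MP_961199_an.Mult
import Pool.Agent.P.MP_961199_an.Fourier

/-!
The upper bound `‖f‖_q ≤ (2q/p - 1)^{deg f / 2} ‖f‖_p`.
-/

set_option autoImplicit false

namespace Pool.Agent.P.MP_961199_an

open Real Set Metric

/-- Holomorphic families of functions on the cube whose coefficient at `S` vanishes at the origin
to order at least the size of `S`. -/
def Adm : (n : ℕ) → (ℂ → Cube n → ℂ) → Prop
  | 0, F => ∀ x, DifferentiableOn ℂ (fun z => F z x) (closedBall 0 1)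
  | n + 1, F => ∃ A B : ℂ → Cube n → ℂ, Adm n A ∧ Adm n B ∧ ∀ (z : ℂ) (x : Cube n),
      F z (Fin.cons 1 x) = A z x + z * B z x ∧ F z (Fin.cons (-1) x) = A z x - z * B z x

lemma Adm.comb : ∀ (n : ℕ) {F G : ℂ → Cube n → ℂ} {h k : ℂ → ℂ}, Adm n F → Adm n G →
    DifferentiableOn ℂ h (closedBall 0 1) → DifferentiableOn ℂ k (closedBall 0 1) →
    Adm n (fun z x => h z * F z x + k z * G z x)
  | 0, _, _, _, _, hF, hG, hh, hk => fun x => (hh.mul (hF x)).add (hk.mul (hG x))
  | n + 1, F, G, h, k, ⟨A, B, hA, hB, hF⟩, ⟨A', B', hA', hB', hG⟩, hh, hk => by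
    refine ⟨fun z x => h z * A z x + k z * A' z x, fun z x => h z * B z x + k z * B' z x,
      Adm.comb n hA hA' hh hk, Adm.comb n hB hB' hh hk, fun z x => ?_⟩
    beta_reduce
    rw [(hF z x).1, (hF z x).2, (hG z x).1, (hG z x).2]
    constructor <;> ring

lemma Adm.zero : ∀ n : ℕ, Adm n (fun _ _ => 0)
  | 0 => fun _ => differentiableOn_const _
  | n + 1 => ⟨fun _ _ => 0, fun _ _ => 0, Adm.zero n, Adm.zero n, fun z x => by simp⟩

lemma Adm.sum {n : ℕ} {ι : Type*} (T : Finset ι) (F : ι → ℂ → Cube n → ℂ) (h : ι → ℂ → ℂ)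
    (hF : ∀ i, Adm n (F i)) (hh : ∀ i, DifferentiableOn ℂ (h i) (closedBall 0 1)) :
    Adm n (fun z x => ∑ i ∈ T, h i z * F i z x) := by
  classical
  induction T using Finset.induction_on with
  | empty => simpa using Adm.zero n
  | insert a T ha ih =>
    have := Adm.comb n (hF a) ih (hh a) (differentiableOn_const (1 : ℂ))
    simpa only [Finset.sum_insert ha, one_mul] using this

lemma Adm.monomial : ∀ (n : ℕ) (s : Fin n → Bool),
    Adm n (fun z x => ∏ i, if s i then z * ((x i : ℤ) : ℂ) else 1)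
  | 0, _ => fun _ => by simp
  | n + 1, s => by
    have ih := Adm.monomial n (fun i => s i.succ)
    cases h : s 0
    · refine ⟨_, fun _ _ => 0, ih, Adm.zero n, fun z x => ?_⟩
      simp [Fin.prod_univ_succ, h]
    · refine ⟨fun _ _ => 0, _, Adm.zero n, ih, fun z x => ?_⟩
      simp [Fin.prod_univ_succ, h]

/-- Unnormalized power sum. -/
noncomputable def psum {n : ℕ} (s : ℝ) (g : Cube n → ℂ) : ℝ := ∑ x, ‖g x‖ ^ s

/-- The `p`-th power of the normalized `L^q` norm. -/
noncomputable def mq {n : ℕ} (p q : ℝ) (g : Cube n → ℂ) : ℝ :=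
  (((2 : ℝ) ^ n)⁻¹ * psum q g) ^ (p / q)

lemma psum_nonneg {n : ℕ} (s : ℝ) (g : Cube n → ℂ) : 0 ≤ psum s g :=
  Finset.sum_nonneg fun _ _ => rpow_nonneg (norm_nonneg _) _

lemma mq_nonneg {n : ℕ} (p q : ℝ) (g : Cube n → ℂ) : 0 ≤ mq p q g :=
  rpow_nonneg (mul_nonneg (by positivity) (psum_nonneg _ _)) _

lemma mq_smul {n : ℕ} {p q : ℝ} (hq : 0 < q) (c : ℂ) (g : Cube n → ℂ) :
    mq p q (fun x => c * g x) = ‖c‖ ^ p * mq p q g := by
  have : psum q (fun x => c * g x) = ‖c‖ ^ q * psum q g := by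
    simp only [psum, Finset.mul_sum, norm_mul]
    exact Finset.sum_congr rfl fun x _ => mul_rpow (norm_nonneg _) (norm_nonneg _)
  rw [mq, mq, this, mul_left_comm, mul_rpow (rpow_nonneg (norm_nonneg _) _)
    (mul_nonneg (by positivity) (psum_nonneg _ _)), ← rpow_mul (norm_nonneg _),
    show q * (p / q) = p by field_simp]

lemma mq_pow {n : ℕ} {p q : ℝ} (hp : 0 < p) (hq : 0 < q) (g : Cube n → ℂ) :
    mq p q g ^ (q / p) = ((2 : ℝ) ^ n)⁻¹ * psum q g := by
  rw [mq, ← rpow_mul (mul_nonneg (by positivity) (psum_nonneg _ _)),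
    show p / q * (q / p) = 1 by field_simp, rpow_one]

lemma step_aux {p q r : ℝ} (hp : 1 ≤ p) (hpq : p ≤ q) (hr0 : 0 < r) (hr1 : r < 1)
    (hr : (2 * (q / p) - 1) * r ^ 2 = 1) {n : ℕ} {A B : ℂ → Cube n → ℂ} (hA : Adm n A)
    (hB : Adm n B)
    (hle : mq p q (fun x => A r x - r * B r x) ≤ mq p q (fun x => A r x + r * B r x)) :
    ∃ G H : ℂ → Cube n → ℂ, Adm n G ∧ Adm n H ∧
      (∀ z : ℂ, ‖z‖ = 1 → psum p (G z) + psum p (H z)
        ≤ psum p (fun x => A z x + z * B z x) + psum p (fun x => A z x - z * B z x)) ∧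
      2 * ((mq p q (fun x => A r x + r * B r x) ^ (q / p)
          + mq p q (fun x => A r x - r * B r x) ^ (q / p)) / 2) ^ (p / q)
        ≤ mq p q (G r) + mq p q (H r) := by
  have hp0 : 0 < p := by linarith
  have hq0 : 0 < q := by linarith
  obtain ⟨ρ, hρ0, hρ1, hρ⟩ := choose_rho (lam := q / p) (by rwa [le_div_iff₀ hp0, one_mul]) hr0 hr
    (mq_nonneg p q _) hle
  obtain ⟨s, τ, k, hs, hτ, hk, ⟨u₀, hu₀, hsr⟩, hkr, hcirc⟩ := multipliers hp hr0 hr1 hρ0 hρ1
  refine ⟨fun z x => s z * A z x + τ z * B z x, fun z x => k z * A z x + (-(k z * z)) * B z x,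
    Adm.comb n hA hB hs hτ, Adm.comb n hA hB hk (hk.mul differentiableOn_id).neg, ?_, ?_⟩
  · intro z hz
    simp only [psum, ← Finset.sum_add_distrib]
    refine Finset.sum_le_sum fun x _ => ?_
    have := hcirc z hz (A z x) (B z x)
    rwa [show k z * (A z x - z * B z x) = k z * A z x + (-(k z * z)) * B z x by ring] at this
  · have e1 : (fun x => s r * A r x + τ r * B r x) = fun x => u₀ * (A r x + r * B r x) :=
      funext fun x => hsr _ _
    have e2 : (fun x => k r * A r x + (-(k r * r)) * B r x)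
        = fun x => k r * (A r x - r * B r x) := funext fun x => by ring
    beta_reduce
    rw [e1, e2, mq_smul hq0, mq_smul hq0, hu₀, hkr]
    rwa [one_div_div] at hρ

lemma step {p q r : ℝ} (hp : 1 ≤ p) (hpq : p ≤ q) (hr0 : 0 < r) (hr1 : r < 1)
    (hr : (2 * (q / p) - 1) * r ^ 2 = 1) {n : ℕ} {F : ℂ → Cube (n + 1) → ℂ} (hF : Adm (n + 1) F) :
    ∃ G H : ℂ → Cube n → ℂ, Adm n G ∧ Adm n H ∧
      (∀ z : ℂ, ‖z‖ = 1 → psum p (G z) + psum p (H z) ≤ psum p (F z)) ∧
      2 * mq p q (F r) ≤ mq p q (G r) + mq p q (H r) := by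
  have hp0 : 0 < p := by linarith
  have hq0 : 0 < q := by linarith
  obtain ⟨A, B, hA, hB, hF⟩ := hF
  have hsum : ∀ (s : ℝ) (z : ℂ), psum s (F z)
      = psum s (fun x => A z x + z * B z x) + psum s (fun x => A z x - z * B z x) := by
    intro s z
    simp only [psum]
    rw [sum_cube_succ]
    simp only [(hF z _).1, (hF z _).2]
  have hm : mq p q (F r) = ((mq p q (fun x => A r x + r * B r x) ^ (q / p)
          + mq p q (fun x => A r x - r * B r x) ^ (q / p)) / 2) ^ (p / q) := by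
    rw [mq_pow hp0 hq0, mq_pow hp0 hq0, mq, hsum]
    congr 1
    rw [pow_succ]
    field_simp
  rcases le_total (mq p q (fun x => A r x - r * B r x)) (mq p q (fun x => A r x + r * B r x))
    with hle | hle
  · obtain ⟨G, H, hG, hH, h1, h2⟩ := step_aux hp hpq hr0 hr1 hr hA hB hle
    exact ⟨G, H, hG, hH, fun z hz => by rw [hsum]; exact h1 z hz, by rw [hm]; exact h2⟩
  · have hB' : Adm n (fun z x => -B z x) := by
      simpa using Adm.comb n hB (Adm.zero n) (differentiableOn_const (-1 : ℂ))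
        (differentiableOn_const (0 : ℂ))
    have e1 : ∀ z : ℂ, (fun x => A z x + z * -B z x) = fun x => A z x - z * B z x :=
      fun z => funext fun x => by ring
    have e2 : ∀ z : ℂ, (fun x => A z x - z * -B z x) = fun x => A z x + z * B z x :=
      fun z => funext fun x => by ring
    obtain ⟨G, H, hG, hH, h1, h2⟩ := step_aux hp hpq hr0 hr1 hr hA hB'
      (by rw [e1, e2]; exact hle)
    refine ⟨G, H, hG, hH, fun z hz => ?_, ?_⟩
    · have := h1 z hz
      rw [e1, e2] at this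
      rw [hsum, add_comm (psum p fun x => A z x + z * B z x)]
      exact this
    · rw [e1, e2] at h2
      rw [hm, add_comm (mq p q (fun x => A r x + r * B r x) ^ (q / p))]
      exact h2

lemma max_principle {p : ℝ} (hp : 1 ≤ p) {J : Type} [Fintype J] (F : J → ℂ → ℂ)
    (hF : ∀ j, DifferentiableOn ℂ (F j) (closedBall 0 1)) {M : ℝ}
    (hM : ∀ z : ℂ, ‖z‖ = 1 → ∑ j, ‖F j z‖ ^ p ≤ M) {w : ℂ} (hw : w ∈ closedBall (0 : ℂ) 1) :
    ∑ j, ‖F j w‖ ^ p ≤ M := by
  have hp0 : 0 < p := by linarith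
  have : Fact (1 ≤ ENNReal.ofReal p) := ⟨by simpa using hp⟩
  let Φ : ℂ → PiLp (ENNReal.ofReal p) (fun _ : J => ℂ) := fun z => WithLp.toLp _ (fun j => F j z)
  have hΦ : DifferentiableOn ℂ Φ (closedBall 0 1) := (differentiableOn_piLp _).2 hF
  have htr : (ENNReal.ofReal p).toReal = p := ENNReal.toReal_ofReal hp0.le
  have hn : ∀ z, ‖Φ z‖ = (∑ j, ‖F j z‖ ^ p) ^ (1 / p) := by
    intro z
    rw [PiLp.norm_eq_sum (by rw [htr]; exact hp0), htr]
  have hM0 : 0 ≤ M :=
    le_trans (Finset.sum_nonneg fun _ _ => rpow_nonneg (norm_nonneg _) _) (hM 1 (by simp))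
  have hd : DiffContOnCl ℂ Φ (ball 0 1) := by
    apply DifferentiableOn.diffContOnCl
    rwa [closure_ball _ one_ne_zero]
  have := Complex.norm_le_of_forall_mem_frontier_norm_le isBounded_ball hd (C := M ^ (1 / p))
    (z := w) (fun z hz => by
      rw [frontier_ball _ one_ne_zero] at hz
      rw [hn]
      exact rpow_le_rpow (Finset.sum_nonneg fun _ _ => rpow_nonneg (norm_nonneg _) _)
        (hM z (by simpa using hz)) (by positivity)) (by rwa [closure_ball _ one_ne_zero])
  rw [hn] at this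
  exact (rpow_le_rpow_iff (Finset.sum_nonneg fun _ _ => rpow_nonneg (norm_nonneg _) _) hM0
    (by positivity)).1 this

theorem main_induction {p q r : ℝ} (hp : 1 ≤ p) (hpq : p ≤ q) (hr0 : 0 < r) (hr1 : r < 1)
    (hr : (2 * (q / p) - 1) * r ^ 2 = 1) (n : ℕ) :
    ∀ (J : Type) [Fintype J] (F : J → ℂ → Cube n → ℂ), (∀ j, Adm n (F j)) → ∀ M : ℝ,
      (∀ z : ℂ, ‖z‖ = 1 → ∑ j, psum p (F j z) ≤ M) →
        (2 : ℝ) ^ n * ∑ j, mq p q (F j r) ≤ M := by
  have hp0 : 0 < p := by linarith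
  have hq0 : 0 < q := by linarith
  induction n with
  | zero =>
    intro J _ F hF M hM
    have h1 : ∀ (s : ℝ) (g : Cube 0 → ℂ), psum s g = ‖g default‖ ^ s := by
      intro s g
      rw [psum, Fintype.sum_unique]
      congr 3
      exact Subsingleton.elim _ _
    have h2 : ∀ g : Cube 0 → ℂ, mq p q g = ‖g default‖ ^ p := by
      intro g
      rw [mq, h1, pow_zero, inv_one, one_mul, ← rpow_mul (norm_nonneg _),
        show q * (p / q) = p by field_simp]
    simp only [h1] at hM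
    simp only [h2, pow_zero, one_mul]
    exact max_principle hp (fun j z => F j z default) (fun j => hF j default) hM
      (by simpa [abs_of_pos hr0] using hr1.le)
  | succ n ih =>
    intro J _ F hF M hM
    choose G H hG hH h1 h2 using fun j => step hp hpq hr0 hr1 hr (hF j)
    have := ih (J ⊕ J) (Sum.elim G H) (by rintro (j | j); exacts [hG j, hH j]) M (by
      intro z hz
      rw [Fintype.sum_sum_type]
      simp only [Sum.elim_inl, Sum.elim_inr, ← Finset.sum_add_distrib]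
      exact (Finset.sum_le_sum fun j _ => h1 j z hz).trans (hM z hz))
    rw [Fintype.sum_sum_type] at this
    simp only [Sum.elim_inl, Sum.elim_inr, ← Finset.sum_add_distrib] at this
    refine le_trans ?_ this
    rw [pow_succ, mul_assoc, Finset.mul_sum]
    exact mul_le_mul_of_nonneg_left (Finset.sum_le_sum fun j _ => h2 j) (by positivity)

lemma adm_pow_mul {n : ℕ} (f : Cube n → ℝ) :
    Adm n (fun z x => z ^ deg f * (f x : ℂ)) := by
  classical
  have h := Adm.sum (n := n) (Finset.univ : Finset (Finset (Fin n)))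
    (fun S z x => ∏ i, if decide (i ∈ S) then z * ((x i : ℤ) : ℂ) else 1)
    (fun S z => (coeff f S : ℂ) * z ^ (deg f - S.card))
    (fun S => Adm.monomial n (fun i => decide (i ∈ S))) (fun S => by fun_prop)
  convert h using 3 with z x
  rw [expansion f x]
  push_cast
  rw [Finset.mul_sum]
  refine Finset.sum_congr rfl fun S _ => ?_
  by_cases hS : coeff f S = 0
  · simp [hS]
  · have hc := card_le_deg hS
    have : (∏ i, if decide (i ∈ S) then z * ((x i : ℤ) : ℂ) else 1)
        = z ^ S.card * (chi S x : ℂ) := by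
      simp only [decide_eq_true_eq]
      rw [Finset.prod_ite_mem, Finset.univ_inter, Finset.prod_mul_distrib, Finset.prod_const, chi]
      push_cast
      rfl
    rw [this, ← Nat.sub_add_cancel hc, pow_add, Nat.add_sub_cancel]
    ring

/-- The upper bound. -/
theorem upper_bound {p q : ℝ} (hp : 1 ≤ p) (hpq : p < q) {n : ℕ} (f : Cube n → ℝ) :
    lpNorm q f ≤ Real.sqrt (2 * q / p - 1) ^ deg f * lpNorm p f := by
  have hp0 : 0 < p := by linarith
  have hq0 : 0 < q := by linarith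
  have hR1 : 1 < 2 * q / p - 1 := by
    rw [lt_sub_iff_add_lt, lt_div_iff₀ hp0]; linarith
  set R := Real.sqrt (2 * q / p - 1) with hR
  have hR1' : 1 < R := by rw [hR]; exact Real.lt_sqrt_of_sq_lt (by simpa using hR1)
  have hR0 : 0 < R := by linarith
  have hR2 : R ^ 2 = 2 * q / p - 1 := Real.sq_sqrt (by linarith)
  set r := R⁻¹ with hr
  have hr0 : 0 < r := inv_pos.2 hR0
  have hr1 : r < 1 := inv_lt_one_of_one_lt₀ hR1'
  have hrr : (2 * (q / p) - 1) * r ^ 2 = 1 := by
    rw [← mul_div_assoc, ← hR2, hr]; field_simp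
  have key := main_induction hp hpq.le hr0 hr1 hrr n Unit
    (fun _ z x => z ^ deg f * (f x : ℂ)) (fun _ => adm_pow_mul f) (∑ x, |f x| ^ p) (by
      intro z hz
      simp [psum, hz])
  simp only [Finset.univ_unique, Finset.sum_singleton] at key
  rw [mq_smul hq0, norm_pow, Complex.norm_real, Real.norm_of_nonneg hr0.le] at key
  have e1 : mq p q (fun x => (f x : ℂ)) = lpNorm q f ^ p := by
    rw [mq, lpNorm, ← rpow_mul (mul_nonneg (by positivity)
      (Finset.sum_nonneg fun _ _ => rpow_nonneg (abs_nonneg _) _)),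
      show 1 / q * p = p / q by ring]
    simp [psum]
  have hS : ∀ s : ℝ, 0 ≤ ((2 : ℝ) ^ n)⁻¹ * ∑ x : Cube n, |f x| ^ s := fun s =>
    mul_nonneg (by positivity) (Finset.sum_nonneg fun _ _ => rpow_nonneg (abs_nonneg _) _)
  have hq' : 0 ≤ lpNorm q f := rpow_nonneg (hS q) _
  have hp' : 0 ≤ lpNorm p f := rpow_nonneg (hS p) _
  have e2 : lpNorm p f ^ p = ((2 : ℝ) ^ n)⁻¹ * ∑ x : Cube n, |f x| ^ p := by
    rw [lpNorm, ← rpow_mul (hS p), show 1 / p * p = 1 by field_simp, rpow_one]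
  have h3 : (r ^ deg f * lpNorm q f) ^ p ≤ lpNorm p f ^ p := by
    rw [mul_rpow (by positivity) hq', e2, ← e1, le_inv_mul_iff₀ (by positivity)]
    exact key
  have h4 := (rpow_le_rpow_iff (by positivity) hp' hp0).1 h3
  rw [hr, inv_pow, inv_mul_le_iff₀ (by positivity)] at h4
  exact h4

end Pool.Agent.P.MP_961199_an
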